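import Mathlib
import Pool.Agent.N889.AO.Stm

set_option autoImplicit false
open Matrix Pool.Agent.N889.AO

namespace Pool.Agent.N945.AO

theorem exists_phi (s : Finset ℝ) (ε : ℝ) (hε : 0 < ε) :
    ∃ φ : ℝ →ₗ[ℚ] ℚ, ∀ x ∈ s, |(φ x : ℝ) - x| < ε := by
  classical
  let V : Submodule ℚ ℝ := Submodule.span ℚ (s : Set ℝ)
  have : FiniteDimensional ℚ V := FiniteDimensional.span_finset ℚ s
  let b := Module.finBasis ℚ V
  have hsV : ∀ x ∈ s, x ∈ V := fun x hx => Submodule.subset_span hx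
  let r : ℝ → Fin (Module.finrank ℚ V) → ℚ := fun x a => if h : x ∈ V then b.repr ⟨x, h⟩ a else 0
  let M : ℝ := 1 + ∑ x ∈ s, ∑ a, |(r x a : ℝ)|
  have hM : 0 < M := by positivity
  have hη : 0 < ε / M := by positivity
  have hch : ∀ a, ∃ q : ℚ, |(q : ℝ) - (b a : ℝ)| < ε / M := by
    intro a
    obtain ⟨q, h1, h2⟩ := exists_rat_btwn (show ((b a : V) : ℝ) - ε / M < (b a : V) + ε / M by linarith)
    refine ⟨q, ?_⟩
    rw [abs_lt]
    constructor <;> linarith
  choose e' he' using hch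
  let φ₀ : V →ₗ[ℚ] ℚ := b.constr ℚ e'
  obtain ⟨φ, hφ⟩ := LinearMap.exists_extend φ₀
  refine ⟨φ, fun x hx => ?_⟩
  have hxV := hsV x hx
  have h1 : φ x = ∑ a, r x a * e' a := by
    have : φ x = φ₀ ⟨x, hxV⟩ := by rw [← hφ]; rfl
    rw [this]
    simp only [φ₀, Module.Basis.constr_apply_fintype, r, dif_pos hxV]
    simp [Module.Basis.equivFun_apply]
  have h2 : x = ∑ a, (r x a : ℝ) * (b a : ℝ) := by
    have h3 := congrArg (fun v : V => (v : ℝ)) (b.sum_repr ⟨x, hxV⟩)
    simp only at h3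
    refine h3.symm.trans ?_
    rw [Submodule.coe_sum]
    apply Finset.sum_congr rfl
    intro a _
    simp only [r]
    rw [dif_pos hxV, Submodule.coe_smul, Rat.smul_def]
  have h4 : (φ x : ℝ) - x = ∑ a, (r x a : ℝ) * ((e' a : ℝ) - (b a : ℝ)) := by
    rw [h1]
    nth_rewrite 2 [h2]
    push_cast
    rw [← Finset.sum_sub_distrib]
    apply Finset.sum_congr rfl
    intro a _
    ring
  rw [h4]
  calc |∑ a, (r x a : ℝ) * ((e' a : ℝ) - (b a : ℝ))|
      ≤ ∑ a, |(r x a : ℝ) * ((e' a : ℝ) - (b a : ℝ))| := Finset.abs_sum_le_sum_abs _ _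
    _ ≤ ∑ a, |(r x a : ℝ)| * (ε / M) := by
        apply Finset.sum_le_sum
        intro a _
        rw [abs_mul]
        exact mul_le_mul_of_nonneg_left (he' a).le (abs_nonneg _)
    _ = (∑ a, |(r x a : ℝ)|) * (ε / M) := by rw [Finset.sum_mul]
    _ < M * (ε / M) := by
        apply mul_lt_mul_of_pos_right _ hη
        have : ∑ a, |(r x a : ℝ)| ≤ ∑ x ∈ s, ∑ a, |(r x a : ℝ)| :=
          Finset.single_le_sum (f := fun x => ∑ a, |(r x a : ℝ)|)
            (fun i _ => Finset.sum_nonneg (fun a _ => abs_nonneg _)) hx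
        simp only [M]
        linarith
    _ = ε := by field_simp

theorem isDer_iff' {ι : Type} [Fintype ι] [DecidableEq ι] (c : ι → ι → ι → ℤ) (R : Type)
    [CommRing R] (D : Matrix ι ι R) :
    IsDer c R D ↔ ∀ i j k, ∑ l, D k l * (c i j l : R) =
      ∑ l, (c l j k : R) * D l i + ∑ l, (c i l k : R) * D l j := by
  have hl : ∀ i j k : ι, (D *ᵥ mulc c R (Pi.single i 1) (Pi.single j 1)) k =
      ∑ l, D k l * (c i j l : R) := by
    intro i j k
    simp only [Matrix.mulVec, dotProduct]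
    apply Finset.sum_congr rfl
    intro l _
    rw [mulc_single]
  have hs : ∀ i l : ι, (D *ᵥ Pi.single i 1) l = D l i := by
    intro i l
    simp
  have h1 : ∀ i j k : ι, mulc c R (D *ᵥ Pi.single i 1) (Pi.single j 1) k =
      ∑ l, (c l j k : R) * D l i := by
    intro i j k
    simp only [mulc, hs]
    apply Finset.sum_congr rfl
    intro l _
    rw [Finset.sum_eq_single j]
    · simp
    · intro b _ hb
      simp [hb]
    · simp
  have h2 : ∀ i j k : ι, mulc c R (Pi.single i 1) (D *ᵥ Pi.single j 1) k =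
      ∑ l, (c i l k : R) * D l j := by
    intro i j k
    simp only [mulc, hs]
    rw [Finset.sum_eq_single i]
    · simp
    · intro b _ hb
      simp [hb]
    · simp
  rw [isDer_iff]
  constructor
  · intro h i j k
    have := congrFun (h i j) k
    rw [Pi.add_apply, hl, h1, h2] at this
    exact this
  · intro h i j
    funext k
    rw [Pi.add_apply, hl, h1, h2]
    exact h i j k

theorem phi_int (φ : ℝ →ₗ[ℚ] ℚ) (x : ℝ) (m : ℤ) : φ (x * (m : ℝ)) = φ x * (m : ℚ) := by
  have : x * (m : ℝ) = (m : ℚ) • x := by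
    rw [Rat.smul_def]; push_cast; ring
  rw [this, map_smul, smul_eq_mul, mul_comm]

theorem phi_int' (φ : ℝ →ₗ[ℚ] ℚ) (x : ℝ) (m : ℤ) : φ ((m : ℝ) * x) = (m : ℚ) * φ x := by
  rw [mul_comm, phi_int, mul_comm]

theorem stmApx : StmApx := by
  intro ι _ _ c D hD ε hε
  classical
  obtain ⟨φ, hφ⟩ := exists_phi (Finset.univ.image (fun ij : ι × ι => D ij.1 ij.2)) ε hε
  refine ⟨Matrix.of fun i j => φ (D i j), ?_, ?_⟩
  · rw [isDer_iff'] at hD ⊢
    intro i j k
    have h := congrArg φ (hD i j k)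
    rw [map_add, map_sum, map_sum, map_sum] at h
    simp only [phi_int, phi_int'] at h
    simpa using h
  · intro i j
    exact hφ _ (Finset.mem_image.mpr ⟨(i, j), Finset.mem_univ _, rfl⟩)

end Pool.Agent.N945.AO
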